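import Mathlib
import Pool.Agent.V11256.ST.Main

/-!
# `k`-star colourability of `(2k - 4)`-regular graphs is `NP`-complete for every `k ≥ 5`
-/

namespace Pool.Agent.Results.MP_b4e77d_lc.RegularStarColouring

open Pool.Agent.NPC Pool.Agent.V11256.ST

/-- The decision problem `k`-Star Colourability restricted to `(2k - 4)`-regular graphs. The
input `x` consists of a list of vertices and a list of edges of the graph `gr x`. -/
def Problem (k : ℕ) (x : List ℕ × List (ℕ × ℕ)) : Prop :=
  (∀ v, ((gr x).neighborSet v).ncard = 2 * k - 4) ∧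
  ∃ c : {v : ℕ // v ∈ x.1} → Fin k, IsStar (gr x) c

/-- **Main theorem.** For every `k ≥ 5` the restricted problem is `NP`-complete; moreover every
language in `NP` reduces to it in such a way that all graphs produced are `(2k - 4)`-regular
(and have no induced star with `k - 1` leaves). -/
theorem result (k : ℕ) (hk : 5 ≤ k) :
    InNPP (Problem k) ∧ NPHardP (Problem k) ∧
    ∀ L : Set (List Bool), InNP L → ∃ f : List Bool → List ℕ × List (ℕ × ℕ),
      PolyTime (fun w => bits (f w)) ∧
      (∀ w v, ((gr (f w)).neighborSet v).ncard = 2 * k - 4) ∧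
      (∀ w, IsEmpty (completeBipartiteGraph (Fin 1) (Fin (k - 1)) ↪g gr (f w))) ∧
      ∀ w, w ∈ L ↔ ∃ c : {v : ℕ // v ∈ (f w).1} → Fin k, IsStar (gr (f w)) c := by
  obtain ⟨p, rfl⟩ : ∃ p, k = p + 2 := ⟨k - 2, by omega⟩
  have e : 2 * (p + 2) - 4 = 2 * p := by omega
  have e' : p + 2 - 1 = p + 1 := by omega
  unfold Problem
  rw [e, e']
  exact ⟨inNP_regular (2 * p) (p + 2),
    npHard_of_hardPr (hardPr_star p (by omega)) (fun _ h => ⟨fun g => ⟨h.1, g⟩, fun g => g.2⟩),
    (star_main p (by omega)).2⟩

end Pool.Agent.Results.MP_b4e77d_lc.RegularStarColouring
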